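import Pool.Agent.Lib_helper98.GC34.Final

/-!
# From strict pairs with `|D| ≤ c A` to positive semidefinite pairs with `|D| ≤ c A`
-/

open scoped BigOperators ComplexOrder Kronecker MatrixOrder Topology
open MeasureTheory Set Matrix Filter

namespace Pool.Agent.Lib_helper11.AAN

open Pool.Agent.RC Pool.Agent.Lib_helper98.GC34

/-- the inequality with constants `N`, `H`, for strict pairs with `|D₁| ≤ c₁ A₁`, `|D₂| ≤ c₂ A₂` -/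
def StrictN (α c₁ c₂ N H : ℝ) : Prop :=
  ∀ {ι κ : Type} [Fintype ι] [DecidableEq ι] [Fintype κ] [DecidableEq κ]
    (A₁ D₁ : Matrix ι ι ℂ) (A₂ D₂ : Matrix κ κ ℂ), (A₁ - D₁).PosDef → (A₁ + D₁).PosDef →
    ((c₁ : ℂ) • A₁ - D₁).PosSemidef → ((c₁ : ℂ) • A₁ + D₁).PosSemidef →
    (A₂ - D₂).PosDef → (A₂ + D₂).PosDef →
    ((c₂ : ℂ) • A₂ - D₂).PosSemidef → ((c₂ : ℂ) • A₂ + D₂).PosSemidef →
    N * (G α A₁ D₁ * G α A₂ D₂) ≤ H * G α (A₁ ⊗ₖ A₂) (D₁ ⊗ₖ D₂)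

variable {ι κ : Type} [Fintype ι] [DecidableEq ι] [Fintype κ] [DecidableEq κ]

theorem eps_psd {c : ℝ} (hc : 0 ≤ c) (j : ℕ) :
    ((c : ℂ) • (((1 / ((j : ℝ) + 1) : ℝ) : ℂ) • (1 : Matrix ι ι ℂ))).PosSemidef := by
  have h1 : (0 : ℂ) ≤ (c : ℂ) := by exact_mod_cast hc
  exact (eps_posDef (ι := ι) j).posSemidef.smul h1

theorem cshift_sub {c : ℝ} (hc : 0 ≤ c) {A D : Matrix ι ι ℂ}
    (h : ((c : ℂ) • A - D).PosSemidef) (j : ℕ) :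
    ((c : ℂ) • shift A j - D).PosSemidef := by
  have e : (c : ℂ) • shift A j - D
      = (c : ℂ) • (((1 / ((j : ℝ) + 1) : ℝ) : ℂ) • (1 : Matrix ι ι ℂ)) + ((c : ℂ) • A - D) := by
    unfold shift; rw [smul_add]; abel
  rw [e]
  exact (eps_psd hc j).add h

theorem cshift_add {c : ℝ} (hc : 0 ≤ c) {A D : Matrix ι ι ℂ}
    (h : ((c : ℂ) • A + D).PosSemidef) (j : ℕ) :
    ((c : ℂ) • shift A j + D).PosSemidef := by
  have e : (c : ℂ) • shift A j + D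
      = (c : ℂ) • (((1 / ((j : ℝ) + 1) : ℝ) : ℂ) • (1 : Matrix ι ι ℂ)) + ((c : ℂ) • A + D) := by
    unfold shift; rw [smul_add]; abel
  rw [e]
  exact (eps_psd hc j).add h

/-- all positive semidefinite pairs with `|D| ≤ c A`, one exponent -/
theorem psd_of_strictN {α c₁ c₂ N H : ℝ} (h0 : 0 < α) (hc₁ : 0 ≤ c₁) (hc₂ : 0 ≤ c₂)
    (hS : StrictN α c₁ c₂ N H)
    {A₁ D₁ : Matrix ι ι ℂ} (h₁ : IsPsdPair A₁ D₁)
    (h₁m : ((c₁ : ℂ) • A₁ - D₁).PosSemidef) (h₁p : ((c₁ : ℂ) • A₁ + D₁).PosSemidef)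
    {A₂ D₂ : Matrix κ κ ℂ} (h₂ : IsPsdPair A₂ D₂)
    (h₂m : ((c₂ : ℂ) • A₂ - D₂).PosSemidef) (h₂p : ((c₂ : ℂ) • A₂ + D₂).PosSemidef) :
    N * (G α A₁ D₁ * G α A₂ D₂) ≤ H * G α (A₁ ⊗ₖ A₂) (D₁ ⊗ₖ D₂) := by
  apply le_of_tendsto_of_tendsto'
    (((tendsto_G_shift h0 h₁.pos.1 h₁.herm).mul
      (tendsto_G_shift h0 h₂.pos.1 h₂.herm)).const_mul N)
    ((tendsto_G_shift_kron h0 h₁.pos.1 h₁.herm h₂.pos.1 h₂.herm).const_mul H)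
  intro j
  exact hS (shift A₁ j) D₁ (shift A₂ j) D₂ (shift_sub h₁.sub j) (shift_add h₁.add j)
    (cshift_sub hc₁ h₁m j) (cshift_add hc₁ h₁p j)
    (shift_sub h₂.sub j) (shift_add h₂.add j)
    (cshift_sub hc₂ h₂m j) (cshift_add hc₂ h₂p j)

end Pool.Agent.Lib_helper11.AAN
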